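import Pool.Agent.R526.TP.Prob
import Pool.Agent.H510R2.Maier.MB9
import Pool.Agent.Helper923.PNT

set_option autoImplicit false

/-! # Randomly thinned primes: windows of length `c log²` without kept primes -/

namespace Pool.Agent.R526.TP

open MeasureTheory ProbabilityTheory Filter Finset Topology
open Pool.Agent.H510R2.Maier Pool.Agent.H510R2.Maier.G

open scoped Classical

/-- the primes of `(n, n + w]` -/
def TT (n w : ℕ) : Finset ℕ := (Ioc n (n + w)).filter Nat.Prime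

theorem card_TT (n w : ℕ) : (TT n w).card = cnt n w := by
  unfold TT cnt
  symm
  apply card_bij (fun h _ => n + h)
  · intro h hh
    rw [mem_filter, mem_Icc] at hh
    rw [mem_filter, mem_Ioc]
    exact ⟨⟨by omega, by omega⟩, hh.2⟩
  · intro a _ b _ h
    omega
  · intro p hp
    rw [mem_filter, mem_Ioc] at hp
    refine ⟨p - n, ?_, by omega⟩
    have : n + (p - n) = p := by omega
    rw [mem_filter, mem_Icc, this]
    exact ⟨⟨by omega, by omega⟩, hp.2⟩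

/-- the interval `(2^(k+1), 2^(k+2)]` contains at least `k` primes -/
theorem many_dyadic : ∀ᶠ k : ℕ in atTop, k ≤ (TT (2 ^ (k + 1)) (2 ^ (k + 1))).card := by
  have hpi := Pool.Agent.Helper923.PNT.pi_tendsto
  have hpow : Tendsto (fun k : ℕ => ((2 : ℝ) ^ (k + 1))) atTop atTop :=
    (tendsto_pow_atTop_atTop_of_one_lt (by norm_num : (1 : ℝ) < 2)).comp (tendsto_add_atTop_nat 1)
  have hpow2 : Tendsto (fun k : ℕ => ((2 : ℝ) ^ (k + 2))) atTop atTop :=
    (tendsto_pow_atTop_atTop_of_one_lt (by norm_num : (1 : ℝ) < 2)).comp (tendsto_add_atTop_nat 2)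
  have e1 := (hpi.comp hpow).eventually_le_const (show (1 : ℝ) < 6 / 5 by norm_num)
  have e2 := (hpi.comp hpow2).eventually_const_le (show (4 / 5 : ℝ) < 1 by norm_num)
  have e3 : ∀ᶠ k : ℕ in atTop, 100 * (k : ℝ) ^ 2 ≤ (2 : ℝ) ^ k := by
    have h1 := (tendsto_pow_const_div_const_pow_of_one_lt 2 (show (1 : ℝ) < 2 by norm_num)).eventually_le_const
      (show (0 : ℝ) < 1 / 100 by norm_num)
    filter_upwards [h1] with k hk
    rw [div_le_iff₀ (by positivity)] at hk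
    linarith
  filter_upwards [e1, e2, e3, eventually_ge_atTop 20] with k h1 h2 h3 h4
  simp only [Function.comp_apply] at h1 h2
  have f1 : ⌊(2 : ℝ) ^ (k + 1)⌋₊ = 2 ^ (k + 1) := by
    have : (2 : ℝ) ^ (k + 1) = ((2 ^ (k + 1) : ℕ) : ℝ) := by push_cast; ring
    rw [this, Nat.floor_natCast]
  have f2 : ⌊(2 : ℝ) ^ (k + 2)⌋₊ = 2 ^ (k + 2) := by
    have : (2 : ℝ) ^ (k + 2) = ((2 ^ (k + 2) : ℕ) : ℝ) := by push_cast; ring
    rw [this, Nat.floor_natCast]
  rw [f1] at h1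
  rw [f2] at h2
  have hk20 : (20 : ℝ) ≤ k := by exact_mod_cast h4
  have hl2 : (0.69 : ℝ) < Real.log 2 := by
    have := Real.log_two_gt_d9
    linarith
  have hl2' : Real.log 2 < (0.7 : ℝ) := by
    have := Real.log_two_lt_d9
    linarith
  have l1 : Real.log ((2 : ℝ) ^ (k + 1)) = (k + 1) * Real.log 2 := by
    rw [Real.log_pow]; push_cast; ring
  have l2 : Real.log ((2 : ℝ) ^ (k + 2)) = (k + 2) * Real.log 2 := by
    rw [Real.log_pow]; push_cast; ring
  rw [l1, div_le_iff₀ (by positivity)] at h1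
  rw [l2, le_div_iff₀ (by positivity)] at h2
  have hc := cnt_pi (2 ^ (k + 1)) (2 ^ (k + 1))
  have hs : 2 ^ (k + 1) + 2 ^ (k + 1) = 2 ^ (k + 2) := by ring
  rw [hs] at hc
  rw [card_TT]
  have hp2 : (2 : ℝ) ^ (k + 2) = 4 * 2 ^ k := by ring
  have hp1 : (2 : ℝ) ^ (k + 1) = 2 * 2 ^ k := by ring
  rw [hp1] at h1
  rw [hp2] at h2
  set a : ℝ := (Nat.primeCounting (2 ^ (k + 1)) : ℝ) with ha
  set b : ℝ := (Nat.primeCounting (2 ^ (k + 2)) : ℝ) with hb
  have ha0 : 0 ≤ a := Nat.cast_nonneg _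
  -- (k+2) log 2 (b - a) ≥ 3.2 * 2^k - 2.4 * 2^k - a log 2
  have q1 : a * Real.log 2 ≤ 12 / 5 * 2 ^ k / (k + 1) := by
    rw [le_div_iff₀ (by positivity)]
    nlinarith
  have q2 : (12 : ℝ) / 5 * 2 ^ k / (k + 1) ≤ 0.12 * 2 ^ k := by
    rw [div_le_iff₀ (by positivity)]
    have : (0 : ℝ) < 2 ^ k := by positivity
    nlinarith
  have q3 : (0.6 : ℝ) * 2 ^ k ≤ (b - a) * ((k + 2) * Real.log 2) := by
    have : (b - a) * ((k + 2) * Real.log 2) = b * ((k + 2) * Real.log 2) - a * ((k + 1) * Real.log 2) - a * Real.log 2 := by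
      ring
    rw [this]
    have : (0 : ℝ) < 2 ^ k := by positivity
    linarith
  have q4 : (k : ℝ) ≤ b - a := by
    by_contra hcon
    rw [not_le] at hcon
    have hpos : (0 : ℝ) < (k + 2) * Real.log 2 := by positivity
    have q5 : (b - a) * ((k + 2) * Real.log 2) < k * ((k + 2) * Real.log 2) :=
      mul_lt_mul_of_pos_right hcon hpos
    have q6 : (k : ℝ) * ((k + 2) * Real.log 2) ≤ k * ((1.1 * k) * 0.7) := by
      have : (k : ℝ) + 2 ≤ 1.1 * k := by linarith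
      gcongr
    have q7 : (0.6 : ℝ) * 2 ^ k < 0.77 * (k : ℝ) ^ 2 := by nlinarith
    have hk2 : (0 : ℝ) < (k : ℝ) ^ 2 := by positivity
    linarith
  have q9 : (k : ℝ) ≤ (cnt (2 ^ (k + 1)) (2 ^ (k + 1)) : ℝ) := by
    rw [hc]
    exact q4
  exact_mod_cast q9

/-- the good windows -/
noncomputable def SS (κ c y : ℝ) (x : ℕ) : Finset ℕ :=
  (Icc 1 x).filter (fun n => y / 2 < (n : ℝ) ∧
    ((TT n ⌊c * (Real.log n) ^ 2⌋₊).card : ℝ) ≤ κ * Real.log n)

theorem windows (κ c η : ℝ) (hκ : 0 < κ)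
    (hc : c < 2 * Real.exp (-Real.eulerMascheroniConstant) * κ) (hη : 0 < η) :
    ∀ᶠ k : ℕ in atTop, ((2 : ℝ) ^ k) ^ (1 - η) / 2 ≤ ((SS κ c (((2 : ℝ) ^ k) ^ (1 - η)) (2 ^ k)).card : ℝ) := by
  have h1 := few_freq κ c η hκ hc hη
  have hpow : Tendsto (fun k : ℕ => (2 : ℕ) ^ k) atTop atTop :=
    tendsto_pow_atTop_atTop_of_one_lt (by norm_num : 1 < 2)
  filter_upwards [hpow.eventually h1] with k hk
  push_cast at hk
  set y := ((2 : ℝ) ^ k) ^ (1 - η) with hy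
  have hy0 : 0 ≤ y := by positivity
  have hsub : (Icc 1 (2 ^ k)).filter (fun n : ℕ => (cntP Nat.Prime n ⌊c * (Real.log n) ^ 2⌋₊ : ℝ) ≤ κ * Real.log n) ⊆
      Icc 1 ⌊y / 2⌋₊ ∪ SS κ c y (2 ^ k) := by
    intro n hn
    rw [mem_filter, mem_Icc] at hn
    rw [mem_union, mem_Icc]
    by_cases h : (n : ℝ) ≤ y / 2
    · left
      exact ⟨hn.1.1, Nat.le_floor h⟩
    · right
      unfold SS
      rw [mem_filter, mem_Icc, card_TT, ← cntP_prime]
      exact ⟨hn.1, not_le.1 h, hn.2⟩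
  have hcard := (card_le_card hsub).trans (card_union_le _ _)
  have h2 : NF Nat.Prime κ c (2 ^ k) ≤ ⌊y / 2⌋₊ + (SS κ c y (2 ^ k)).card := by
    unfold NF
    rw [Nat.card_Icc, Nat.add_sub_cancel] at hcard
    convert hcard
  have h3 : (NF Nat.Prime κ c (2 ^ k) : ℝ) ≤ ⌊y / 2⌋₊ + (SS κ c y (2 ^ k)).card := by exact_mod_cast h2
  have h4 : (⌊y / 2⌋₊ : ℝ) ≤ y / 2 := Nat.floor_le (by positivity)
  linarith

variable {Ω : Type} [MeasurableSpace Ω] (μ : Measure Ω) [IsProbabilityMeasure μ] {K : ℕ → Set Ω}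

/-- no good window is empty of kept primes -/
def Bad (K : ℕ → Set Ω) (κ c η : ℝ) (k : ℕ) : Set Ω :=
  ⋂ n ∈ SS κ c (((2 : ℝ) ^ k) ^ (1 - η)) (2 ^ k), (del K (TT n ⌊c * (Real.log n) ^ 2⌋₊))ᶜ

theorem bad_prob (h : iIndepSet K μ) (hK : ∀ n, MeasurableSet (K n)) (ρ : ℝ) (hρ0 : 0 < ρ)
    (hρ1 : ρ < 1) (hT : ∀ p, p.Prime → μ.real (K p) ≤ ρ) (κ c η : ℝ) (hκ : 0 < κ) (hc0 : 0 < c)
    (hc : c < 2 * Real.exp (-Real.eulerMascheroniConstant) * κ) (hη : 0 < η)
    (hκη : κ * Real.log (1 / (1 - ρ)) ≤ 1 - 3 * η) :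
    ∀ᶠ k : ℕ in atTop, μ.real (Bad K κ c η k) ≤ ((2 : ℝ) ^ (-η)) ^ k := by
  set L1 := Real.log (1 / (1 - ρ)) with hL1
  have hL10 : 0 < L1 := Real.log_pos (by rw [lt_div_iff₀ (by linarith)]; linarith)
  have hexp : 1 - ρ = Real.exp (-L1) := by
    rw [hL1, one_div, Real.log_inv, neg_neg, Real.exp_log (by linarith)]
  have e1 : ∀ᶠ k : ℕ in atTop, (2 * (c * (k : ℝ) ^ 2) + 1) ≤ 1 / 2 * ((2 : ℝ) ^ k) ^ η := by
    have hr : (1 : ℝ) < (2 : ℝ) ^ η := Real.one_lt_rpow (by norm_num) hη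
    have h1 := (tendsto_pow_const_div_const_pow_of_one_lt 2 hr).eventually_le_const
      (show (0 : ℝ) < 1 / (8 * (c + 1)) by positivity)
    have h2 := (tendsto_pow_atTop_atTop_of_one_lt hr).eventually_ge_atTop 8
    filter_upwards [h1, h2] with k h1 h2
    rw [div_le_iff₀ (by positivity)] at h1
    have h3 : ((2 : ℝ) ^ k) ^ η = ((2 : ℝ) ^ η) ^ k := by
      rw [← Real.rpow_natCast, ← Real.rpow_natCast, ← Real.rpow_mul (by norm_num), ← Real.rpow_mul (by norm_num), mul_comm]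
    rw [h3]
    set z := ((2 : ℝ) ^ η) ^ k with hz
    have h4 : (c + 1) * (k : ℝ) ^ 2 ≤ z / 8 := by
      rw [one_div, inv_mul_eq_div, le_div_iff₀ (by positivity)] at h1
      linarith
    nlinarith [sq_nonneg (k : ℝ)]
  filter_upwards [windows κ c η hκ hc hη, e1, eventually_ge_atTop 1] with k hk h1 hk1
  set x : ℝ := (2 : ℝ) ^ k with hx
  have hx1 : 1 ≤ x := one_le_pow₀ (by norm_num)
  have hx0 : 0 < x := by linarith
  set y := x ^ (1 - η) with hy
  set S := SS κ c y (2 ^ k) with hS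
  set A : ℕ → Set Ω := fun n => del K (TT n ⌊c * (Real.log n) ^ 2⌋₊) with hA
  set W : ℕ := ⌊c * (Real.log x) ^ 2⌋₊ with hW
  have hlogx : Real.log x = k * Real.log 2 := by rw [hx, Real.log_pow]
  have hSx : ∀ n ∈ S, 1 ≤ n ∧ (n : ℝ) ≤ x := by
    intro n hn
    rw [hS] at hn
    unfold SS at hn
    rw [mem_filter, mem_Icc] at hn
    refine ⟨hn.1.1, ?_⟩
    have : (n : ℝ) ≤ ((2 ^ k : ℕ) : ℝ) := by exact_mod_cast hn.1.2
    push_cast at this
    exact this
  have hlogn : ∀ n ∈ S, 0 ≤ Real.log n ∧ Real.log n ≤ Real.log x := by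
    intro n hn
    obtain ⟨a1, a2⟩ := hSx n hn
    have a3 : (1 : ℝ) ≤ n := by exact_mod_cast a1
    exact ⟨Real.log_nonneg a3, Real.log_le_log (by linarith) a2⟩
  have hwW : ∀ n ∈ S, ⌊c * (Real.log n) ^ 2⌋₊ ≤ W := by
    intro n hn
    obtain ⟨a1, a2⟩ := hlogn n hn
    apply Nat.floor_le_floor
    gcongr
  have hsec := second μ A (fun n => del_meas hK _) S W (by
    intro n hn m hm hnm
    apply del_mul μ h
    rw [disjoint_left]
    intro p hp hp'
    unfold TT at hp hp'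
    rw [mem_filter, mem_Ioc] at hp hp'
    have := hwW n hn
    omega) (∑ n ∈ S, μ.real (A n)) rfl
  set E := ∑ n ∈ S, μ.real (A n) with hE
  have hEn : ∀ n ∈ S, x ^ (-(1 - 3 * η)) ≤ μ.real (A n) := by
    intro n hn
    have b1 := del_low μ h hK (TT n ⌊c * (Real.log n) ^ 2⌋₊) ρ hρ1.le (by
      intro p hp
      unfold TT at hp
      exact hT p (mem_filter.1 hp).2)
    refine le_trans ?_ b1
    have b2 : ((TT n ⌊c * (Real.log n) ^ 2⌋₊).card : ℝ) ≤ κ * Real.log n := by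
      rw [hS] at hn
      unfold SS at hn
      exact (mem_filter.1 hn).2.2
    obtain ⟨a1, a2⟩ := hlogn n hn
    rw [hexp, ← Real.exp_nat_mul, Real.rpow_def_of_pos hx0]
    apply Real.exp_le_exp.2
    have hlx : 0 ≤ Real.log x := a1.trans a2
    have b3 : ((TT n ⌊c * (Real.log n) ^ 2⌋₊).card : ℝ) * L1 ≤ κ * Real.log x * L1 := by
      apply mul_le_mul_of_nonneg_right _ hL10.le
      exact b2.trans (mul_le_mul_of_nonneg_left a2 hκ.le)
    have b4 : κ * Real.log x * L1 ≤ (1 - 3 * η) * Real.log x := by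
      have := mul_le_mul_of_nonneg_right hκη hlx
      linarith
    linarith
  have hElow : x ^ (2 * η) / 2 ≤ E := by
    have b1 : (S.card : ℝ) * x ^ (-(1 - 3 * η)) ≤ E := by
      rw [hE, ← nsmul_eq_mul, ← sum_const]
      exact sum_le_sum hEn
    refine le_trans ?_ b1
    calc x ^ (2 * η) / 2 = y / 2 * x ^ (-(1 - 3 * η)) := by
          rw [hy, div_mul_eq_mul_div, ← Real.rpow_add hx0]
          congr 2
          ring
      _ ≤ S.card * x ^ (-(1 - 3 * η)) := by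
          apply mul_le_mul_of_nonneg_right hk
          positivity
  have hE0 : 0 < E := lt_of_lt_of_le (by positivity) hElow
  have hb1 : μ.real (Bad K κ c η k) * E ≤ 2 * W + 1 := by
    have b1 : μ.real (Bad K κ c η k) * E ^ 2 ≤ (2 * W + 1) * E := hsec
    have b2 : μ.real (Bad K κ c η k) * E * E ≤ (2 * W + 1) * E := by nlinarith
    exact le_of_mul_le_mul_right b2 hE0
  have hWle : (W : ℝ) ≤ c * (k : ℝ) ^ 2 := by
    have b1 : (W : ℝ) ≤ c * (Real.log x) ^ 2 := Nat.floor_le (by positivity)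
    refine b1.trans ?_
    rw [hlogx]
    have b2 : Real.log 2 ≤ 1 := by
      have := Real.log_two_lt_d9
      linarith
    have b3 : (k : ℝ) * Real.log 2 ≤ k := by
      have : (0 : ℝ) ≤ k := Nat.cast_nonneg k
      nlinarith
    have b4 : 0 ≤ (k : ℝ) * Real.log 2 := by positivity
    gcongr
  have hpow : ((2 : ℝ) ^ (-η)) ^ k = x ^ (-η) := by
    rw [hx, ← Real.rpow_natCast, ← Real.rpow_natCast, ← Real.rpow_mul (by norm_num), ← Real.rpow_mul (by norm_num), mul_comm]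
  rw [hpow]
  have hfin : μ.real (Bad K κ c η k) * (x ^ (2 * η) / 2) ≤ 1 / 2 * x ^ η := by
    calc μ.real (Bad K κ c η k) * (x ^ (2 * η) / 2) ≤ μ.real (Bad K κ c η k) * E :=
          mul_le_mul_of_nonneg_left hElow measureReal_nonneg
      _ ≤ 2 * W + 1 := hb1
      _ ≤ 2 * (c * (k : ℝ) ^ 2) + 1 := by linarith
      _ ≤ 1 / 2 * x ^ η := h1
  have hx2 : x ^ (2 * η) = x ^ η * x ^ η := by rw [← Real.rpow_add hx0]; congr 1; ring
  have hxn : x ^ (-η) = (x ^ η)⁻¹ := Real.rpow_neg hx0.le η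
  have hxp : 0 < x ^ η := by positivity
  rw [hxn, ← one_div, le_div_iff₀ hxp]
  rw [hx2] at hfin
  have : μ.real (Bad K κ c η k) * x ^ η * (x ^ η / 2) ≤ 1 * (x ^ η / 2) := by nlinarith
  exact le_of_mul_le_mul_right this (by positivity)

end Pool.Agent.R526.TP
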