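import Pool.Agent.R526.TP.Thin

set_option autoImplicit false

/-! # Randomly thinned primes have gaps of size `c log²` -/

namespace Pool.Agent.R526.TP

open MeasureTheory ProbabilityTheory Filter Finset Topology

open scoped Classical

theorem gap_of (Q : ℕ → Prop) (c η B : ℝ) (hc : 0 < c) (hη : 0 < η) (hη2 : η < 1 / 2)
    (hB : B ≤ c * (1 - 2 * η) ^ 2)
    (H1 : ∀ᶠ k : ℕ in atTop, ∃ n : ℕ, 1 ≤ n ∧ n ≤ 2 ^ k ∧ ((2 : ℝ) ^ k) ^ (1 - η) / 2 < n ∧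
      ∀ p, n < p → p ≤ n + ⌊c * (Real.log n) ^ 2⌋₊ → ¬ Q p)
    (H2 : ∀ᶠ k : ℕ in atTop, ∃ p, Q p ∧ 2 ^ (k + 1) < p ∧ p ≤ 2 ^ (k + 2)) :
    ∀ᶠ x : ℝ in atTop, ∃ a b : ℕ, Q a ∧ Q b ∧ a < b ∧ (b : ℝ) ≤ x ∧
      (∀ p, Q p → ¬ (a < p ∧ p < b)) ∧ B * (Real.log x) ^ 2 ≤ (b : ℝ) - a := by
  obtain ⟨k₁, hk₁⟩ := eventually_atTop.1 (H1.and H2)
  obtain ⟨p₀, hp₀, -, -⟩ := (hk₁ k₁ le_rfl).2
  have ht : Tendsto (fun k : ℕ => ((2 : ℝ) ^ k) ^ (1 - η) / 2) atTop atTop := by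
    apply Tendsto.atTop_div_const (by norm_num)
    exact (tendsto_rpow_atTop (by linarith)).comp
      (tendsto_pow_atTop_atTop_of_one_lt (by norm_num : (1 : ℝ) < 2))
  obtain ⟨k₂, hk₂⟩ := eventually_atTop.1 (ht.eventually_ge_atTop (p₀ : ℝ))
  obtain ⟨k₃, hk₃⟩ := exists_nat_ge (4 / η)
  filter_upwards [eventually_ge_atTop ((2 : ℝ) ^ (k₁ + k₂ + k₃ + 3))] with x hx
  have hx1 : 1 ≤ x := le_trans (one_le_pow₀ (by norm_num)) hx
  have hx0 : 0 < x := by linarith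
  -- the exponent
  obtain ⟨m, hm1, hm2⟩ : ∃ m : ℕ, (2 : ℝ) ^ m ≤ x ∧ x < (2 : ℝ) ^ (m + 1) :=
    exists_nat_pow_near hx1 (by norm_num)
  have hm3 : k₁ + k₂ + k₃ + 3 ≤ m := by
    have h1 : (2 : ℝ) ^ (k₁ + k₂ + k₃ + 3) < 2 ^ (m + 1) := lt_of_le_of_lt hx hm2
    have h2 := (pow_lt_pow_iff_right₀ (by norm_num : (1 : ℝ) < 2)).1 h1
    omega
  obtain ⟨k, hk⟩ : ∃ k, m = k + 2 := ⟨m - 2, by omega⟩
  subst hk
  obtain ⟨⟨n, hn1, hn2, hn3, hn4⟩, ⟨q, hq1, hq2, hq3⟩⟩ := hk₁ k (by omega)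
  have hp0n : p₀ ≤ n := by
    have h1 := hk₂ k (by omega)
    have h2 : (p₀ : ℝ) < n := lt_of_le_of_lt h1 hn3
    exact_mod_cast h2.le
  have hnq : n < q := by
    have : 2 ^ k < 2 ^ (k + 1) := Nat.pow_lt_pow_right (by norm_num) (by omega)
    omega
  set a := Nat.findGreatest Q n with ha
  have haQ : Q a := Nat.findGreatest_spec hp0n hp₀
  have han : a ≤ n := Nat.findGreatest_le n
  have hex : ∃ b, n < b ∧ Q b := ⟨q, hnq, hq1⟩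
  set b := Nat.find hex with hb
  obtain ⟨hb1, hb2⟩ := Nat.find_spec hex
  rw [← hb] at hb1 hb2
  have hbq : b ≤ q := Nat.find_min' hex ⟨hnq, hq1⟩
  have hbw : n + ⌊c * (Real.log n) ^ 2⌋₊ < b := by
    by_contra hcon
    exact hn4 b hb1 (not_lt.1 hcon) hb2
  refine ⟨a, b, haQ, hb2, by omega, ?_, ?_, ?_⟩
  · have h1 : (b : ℝ) ≤ ((2 ^ (k + 2) : ℕ) : ℝ) := by exact_mod_cast hbq.trans hq3
    push_cast at h1
    exact h1.trans hm1
  · rintro p hp ⟨h1, h2⟩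
    rcases Nat.lt_or_ge n p with h | h
    · exact absurd h2 (not_lt.2 (Nat.find_min' hex ⟨h, hp⟩))
    · exact absurd h1 (not_lt.2 (Nat.le_findGreatest h hp))
  · have h1 : (n : ℝ) + ⌊c * (Real.log n) ^ 2⌋₊ + 1 ≤ b := by exact_mod_cast hbw
    have h2 : c * (Real.log n) ^ 2 < ⌊c * (Real.log n) ^ 2⌋₊ + 1 := Nat.lt_floor_add_one _
    have h3 : (a : ℝ) ≤ n := by exact_mod_cast han
    have h4 : c * (Real.log n) ^ 2 ≤ (b : ℝ) - a := by linarith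
    refine le_trans ?_ h4
    have hl2 : 0 < Real.log 2 := Real.log_pos (by norm_num)
    have hkr : 4 / η ≤ k := by
      refine hk₃.trans ?_
      exact_mod_cast (by omega : k₃ ≤ k)
    rw [div_le_iff₀ hη] at hkr
    have h5 : (1 - 2 * η) * ((k + 3) * Real.log 2) ≤ Real.log n := by
      have h6 : Real.log (((2 : ℝ) ^ k) ^ (1 - η) / 2) ≤ Real.log n :=
        Real.log_le_log (by positivity) hn3.le
      rw [Real.log_div (by positivity) (by norm_num), Real.log_rpow (by positivity), Real.log_pow] at h6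
      refine le_trans ?_ h6
      have : (1 - 2 * η) * (k + 3) ≤ (1 - η) * k - 1 := by nlinarith
      have h7 := mul_le_mul_of_nonneg_right this hl2.le
      linarith
    have h6 : Real.log x ≤ (k + 3) * Real.log 2 := by
      have h7 : Real.log x ≤ Real.log ((2 : ℝ) ^ (k + 2 + 1)) := Real.log_le_log hx0 hm2.le
      rw [Real.log_pow] at h7
      push_cast at h7
      linarith
    have hlx : 0 ≤ Real.log x := Real.log_nonneg hx1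
    have h7 : (1 - 2 * η) * Real.log x ≤ Real.log n := by
      refine le_trans ?_ h5
      exact mul_le_mul_of_nonneg_left h6 (by linarith)
    have h8 : ((1 - 2 * η) * Real.log x) ^ 2 ≤ (Real.log n) ^ 2 :=
      pow_le_pow_left₀ (mul_nonneg (by linarith) hlx) h7 2
    calc B * (Real.log x) ^ 2 ≤ c * (1 - 2 * η) ^ 2 * (Real.log x) ^ 2 :=
          mul_le_mul_of_nonneg_right hB (by positivity)
      _ = c * ((1 - 2 * η) * Real.log x) ^ 2 := by ring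
      _ ≤ c * (Real.log n) ^ 2 := mul_le_mul_of_nonneg_left h8 hc.le

variable {Ω : Type} [MeasurableSpace Ω] (μ : Measure Ω) [IsProbabilityMeasure μ] {K : ℕ → Set Ω}

theorem thinned_eps (h : iIndepSet K μ) (hK : ∀ n, MeasurableSet (K n)) (ρ₀ ρ : ℝ) (hρ₀ : 0 < ρ₀)
    (hρ1 : ρ < 1) (hlo : ∀ p, p.Prime → ρ₀ ≤ μ.real (K p))
    (hup : ∀ p, p.Prime → μ.real (K p) ≤ ρ) (ε : ℝ) (hε : 0 < ε) :
    ∀ᵐ ω ∂μ, ∀ᶠ x : ℝ in atTop, ∃ a b : ℕ, (a.Prime ∧ ω ∈ K a) ∧ (b.Prime ∧ ω ∈ K b) ∧ a < b ∧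
      (b : ℝ) ≤ x ∧ (∀ p : ℕ, (p.Prime ∧ ω ∈ K p) → ¬ (a < p ∧ p < b)) ∧
      (2 * Real.exp (-Real.eulerMascheroniConstant) / Real.log (1 / (1 - ρ)) - ε) *
        (Real.log x) ^ 2 ≤ (b : ℝ) - a := by
  have hρ0 : 0 < ρ := hρ₀.trans_le ((hlo 2 Nat.prime_two).trans (hup 2 Nat.prime_two))
  set L1 := Real.log (1 / (1 - ρ)) with hL1
  have hL10 : 0 < L1 := Real.log_pos (by rw [lt_div_iff₀ (by linarith)]; linarith)
  set G : ℝ := 2 * Real.exp (-Real.eulerMascheroniConstant) with hG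
  have hG0 : 0 < G := by positivity
  set C₀ : ℝ := G / L1 with hC₀
  have hC₀0 : 0 < C₀ := by positivity
  set η : ℝ := min (1 / 10) (ε / (8 * C₀)) with hη
  have hη0 : 0 < η := lt_min (by norm_num) (by positivity)
  have hη1 : η ≤ 1 / 10 := min_le_left _ _
  have hη2 : 8 * η * C₀ ≤ ε := by
    have : η ≤ ε / (8 * C₀) := min_le_right _ _
    rw [le_div_iff₀ (by positivity)] at this
    linarith
  set κ : ℝ := (1 - 3 * η) / L1 with hκ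
  have hκ0 : 0 < κ := div_pos (by linarith) hL10
  set c : ℝ := C₀ * (1 - 4 * η) with hc
  have hc0 : 0 < c := mul_pos hC₀0 (by linarith)
  have hcκ : c < G * κ := by
    have h1 : G * κ = C₀ * (1 - 3 * η) := by rw [hκ, hC₀]; ring
    rw [h1, hc]
    exact mul_lt_mul_of_pos_left (by linarith) hC₀0
  have hκη : κ * L1 ≤ 1 - 3 * η := by
    rw [hκ, div_mul_cancel₀ _ hL10.ne']
  have hbad := bad_prob μ h hK ρ hρ0 hρ1 hup κ c η hκ0 hc0 hcκ hη0 hκη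
  have hae1 := bc μ (Bad K κ c η) ((2 : ℝ) ^ (-η)) (by positivity)
    (Real.rpow_lt_one_of_one_lt_of_neg (by norm_num) (by linarith)) hbad
  have hnk : ∀ᶠ k : ℕ in atTop, μ.real (del K (TT (2 ^ (k + 1)) (2 ^ (k + 1)))) ≤ (1 - ρ₀) ^ k := by
    filter_upwards [many_dyadic] with k hk
    have h1 := del_up μ h hK (TT (2 ^ (k + 1)) (2 ^ (k + 1))) ρ₀ (by
      intro p hp
      unfold TT at hp
      exact hlo p (mem_filter.1 hp).2)
    refine h1.trans ?_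
    have h2 : ρ₀ ≤ 1 := (hlo 2 Nat.prime_two).trans ((hup 2 Nat.prime_two).trans hρ1.le)
    exact pow_le_pow_of_le_one (by linarith) (by linarith) hk
  have h1ρ : 0 ≤ 1 - ρ₀ := by
    have h2 : ρ₀ ≤ 1 := (hlo 2 Nat.prime_two).trans ((hup 2 Nat.prime_two).trans hρ1.le)
    linarith
  have hae2 := bc μ (fun k => del K (TT (2 ^ (k + 1)) (2 ^ (k + 1)))) (1 - ρ₀) h1ρ (by linarith) hnk
  filter_upwards [hae1, hae2] with ω hω1 hω2
  refine gap_of (fun p => p.Prime ∧ ω ∈ K p) c η (C₀ - ε) hc0 hη0 (by linarith) ?_ ?_ ?_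
  · -- numerical inequality
    have h2 : (1 - 2 * η) ^ 2 ≥ 1 - 4 * η := by nlinarith [sq_nonneg η]
    have h3 : c * (1 - 4 * η) ≤ c * (1 - 2 * η) ^ 2 := mul_le_mul_of_nonneg_left h2 hc0.le
    refine le_trans ?_ h3
    rw [hc]
    nlinarith [mul_nonneg hC₀0.le (sq_nonneg η)]
  · filter_upwards [hω1] with k hk
    unfold Bad at hk
    simp only [Set.mem_iInter, Set.mem_compl_iff, not_forall, not_not] at hk
    obtain ⟨n, hn, hd⟩ := hk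
    rw [mem_del] at hd
    unfold SS at hn
    rw [mem_filter, mem_Icc] at hn
    refine ⟨n, hn.1.1, hn.1.2, hn.2.1, ?_⟩
    rintro p hp1 hp2 ⟨hp3, hp4⟩
    refine hd p ?_ hp4
    unfold TT
    rw [mem_filter, mem_Ioc]
    exact ⟨⟨hp1, hp2⟩, hp3⟩
  · filter_upwards [hω2] with k hk
    rw [mem_del] at hk
    push Not at hk
    obtain ⟨p, hp, hpK⟩ := hk
    unfold TT at hp
    rw [mem_filter, mem_Ioc] at hp
    refine ⟨p, ⟨hp.2, hpK⟩, hp.1.1, ?_⟩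
    have : 2 ^ (k + 1) + 2 ^ (k + 1) = 2 ^ (k + 2) := by ring
    omega

theorem thinned (h : iIndepSet K μ) (hK : ∀ n, MeasurableSet (K n)) (ρ₀ ρ : ℝ) (hρ₀ : 0 < ρ₀)
    (hρ1 : ρ < 1) (hlo : ∀ p, p.Prime → ρ₀ ≤ μ.real (K p))
    (hup : ∀ p, p.Prime → μ.real (K p) ≤ ρ) :
    ∀ᵐ ω ∂μ, ∀ ε : ℝ, 0 < ε → ∀ᶠ x : ℝ in atTop, ∃ a b : ℕ, (a.Prime ∧ ω ∈ K a) ∧
      (b.Prime ∧ ω ∈ K b) ∧ a < b ∧
      (b : ℝ) ≤ x ∧ (∀ p : ℕ, (p.Prime ∧ ω ∈ K p) → ¬ (a < p ∧ p < b)) ∧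
      (2 * Real.exp (-Real.eulerMascheroniConstant) / Real.log (1 / (1 - ρ)) - ε) *
        (Real.log x) ^ 2 ≤ (b : ℝ) - a := by
  have h1 : ∀ᵐ ω ∂μ, ∀ m : ℕ, ∀ᶠ x : ℝ in atTop, ∃ a b : ℕ, (a.Prime ∧ ω ∈ K a) ∧
      (b.Prime ∧ ω ∈ K b) ∧ a < b ∧
      (b : ℝ) ≤ x ∧ (∀ p : ℕ, (p.Prime ∧ ω ∈ K p) → ¬ (a < p ∧ p < b)) ∧
      (2 * Real.exp (-Real.eulerMascheroniConstant) / Real.log (1 / (1 - ρ)) - 1 / ((m : ℝ) + 1)) *
        (Real.log x) ^ 2 ≤ (b : ℝ) - a := by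
    rw [ae_all_iff]
    intro m
    exact thinned_eps μ h hK ρ₀ ρ hρ₀ hρ1 hlo hup (1 / ((m : ℝ) + 1)) (by positivity)
  filter_upwards [h1] with ω hω ε hε
  obtain ⟨m, hm⟩ := exists_nat_one_div_lt hε
  filter_upwards [hω m] with x hx
  obtain ⟨a, b, h2, h3, h4, h5, h6, h7⟩ := hx
  refine ⟨a, b, h2, h3, h4, h5, h6, le_trans ?_ h7⟩
  apply mul_le_mul_of_nonneg_right _ (sq_nonneg _)
  linarith

end Pool.Agent.R526.TP
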