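import Mathlib

set_option autoImplicit false

/-! # Numerical facts -/

namespace Pool.Agent.R526.TP

theorem gamma_lt : Real.eulerMascheroniConstant < 5812 / 10000 := by
  have h1 : Real.eulerMascheroniConstant < Real.eulerMascheroniSeq' 128 :=
    Real.eulerMascheroniConstant_lt_eulerMascheroniSeq' 128
  have h2 : Real.eulerMascheroniSeq' 128 = (harmonic 128 : ℝ) - Real.log 128 := by
    simp [Real.eulerMascheroniSeq']
  have h3 : Real.log 128 = 7 * Real.log 2 := by
    rw [show (128 : ℝ) = 2 ^ 7 by norm_num, Real.log_pow]; norm_num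
  have h4 := Real.log_two_gt_d9
  have h5 : (harmonic 128 : ℝ) < 54332 / 10000 := by
    have : harmonic 128 < 54332 / 10000 := by
      rw [harmonic]
      norm_num [Finset.sum_range_succ]
    have h6 : ((harmonic 128 : ℚ) : ℝ) < ((54332 / 10000 : ℚ) : ℝ) := by exact_mod_cast this
    refine h6.trans_le ?_
    norm_num
  rw [h2, h3] at h1
  linarith

theorem log54 : Real.log (5 / 4) ≤ 0.2232 := by
  rw [Real.log_le_iff_le_exp (by norm_num)]
  have h := Real.sum_le_exp_of_nonneg (show (0 : ℝ) ≤ 0.2232 by norm_num) 6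
  refine le_trans ?_ h
  norm_num [Finset.sum_range_succ, Nat.factorial]

theorem exp_low : (0.559 : ℝ) < Real.exp (-(5812 / 10000)) := by
  rw [Real.exp_neg, lt_inv_comm₀ (by norm_num) (Real.exp_pos _)]
  have h := Real.exp_bound' (x := (5812 / 10000 : ℝ)) (by norm_num) (by norm_num) (n := 8) (by norm_num)
  refine h.trans_lt ?_
  norm_num [Finset.sum_range_succ, Nat.factorial]

/-- the constant of the theorem is larger than `1/ρ` for `ρ ≤ 1/5` -/
theorem const_gt (ρ : ℝ) (h0 : 0 < ρ) (h1 : ρ ≤ 1 / 5) :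
    1 / ρ < 2 * Real.exp (-Real.eulerMascheroniConstant) / Real.log (1 / (1 - ρ)) := by
  have hL : 0 < Real.log (1 / (1 - ρ)) := Real.log_pos (by rw [lt_div_iff₀ (by linarith)]; linarith)
  rw [div_lt_div_iff₀ h0 hL, one_mul]
  have h2 : Real.log (1 / (1 - ρ)) ≤ 5 * ρ * Real.log (5 / 4) := by
    have hc := strictConcaveOn_log_Ioi.concaveOn
    have h3 := hc.2 (show (4 / 5 : ℝ) ∈ Set.Ioi 0 by simp) (show (1 : ℝ) ∈ Set.Ioi 0 by simp)
      (show 0 ≤ 5 * ρ by linarith) (show 0 ≤ 1 - 5 * ρ by linarith) (by ring)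
    simp only [smul_eq_mul, mul_one, Real.log_one, mul_zero, add_zero] at h3
    have h4 : 5 * ρ * (4 / 5) + (1 - 5 * ρ) = 1 - ρ := by ring
    rw [h4] at h3
    have h5 : Real.log (4 / 5) = - Real.log (5 / 4) := by
      rw [← Real.log_inv]; norm_num
    rw [h5] at h3
    rw [one_div, Real.log_inv]
    linarith
  have h3 : (0.559 : ℝ) < Real.exp (-Real.eulerMascheroniConstant) := by
    refine exp_low.trans ?_
    exact Real.exp_lt_exp.2 (by have := gamma_lt; linarith)
  have h4 := log54
  nlinarith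

end Pool.Agent.R526.TP
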