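import Mathlib

set_option autoImplicit false

/-! # Independent deletions: second moment and Borel-Cantelli -/

namespace Pool.Agent.R526.TP

open MeasureTheory ProbabilityTheory Filter Finset

open scoped Classical

variable {Ω : Type} [MeasurableSpace Ω] (μ : Measure Ω) [IsProbabilityMeasure μ]

/-- second moment method for events which are independent when their indices are far apart -/
theorem second (A : ℕ → Set Ω) (hA : ∀ n, MeasurableSet (A n)) (S : Finset ℕ) (W : ℕ)
    (hind : ∀ n ∈ S, ∀ m ∈ S, n + W < m → μ.real (A n ∩ A m) = μ.real (A n) * μ.real (A m))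
    (E : ℝ) (hE : E = ∑ n ∈ S, μ.real (A n)) :
    μ.real (⋂ n ∈ S, (A n)ᶜ) * E ^ 2 ≤ (2 * W + 1) * E := by
  set f : ℕ → Ω → ℝ := fun n => (A n).indicator (fun _ => (1 : ℝ)) with hf
  have hfi : ∀ n, Integrable (f n) μ := fun n => (integrable_const (1 : ℝ)).indicator (hA n)
  have hff : ∀ n m, Integrable (fun ω => f n ω * f m ω) μ := by
    intro n m
    have : (fun ω => f n ω * f m ω) = (A n ∩ A m).indicator (fun _ => (1 : ℝ)) := by
      funext ω
      simp only [hf, Set.indicator, Set.mem_inter_iff]
      by_cases h1 : ω ∈ A n <;> by_cases h2 : ω ∈ A m <;> simp [h1, h2]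
    rw [this]
    exact (integrable_const (1 : ℝ)).indicator ((hA n).inter (hA m))
  have hI1 : ∀ n, ∫ ω, f n ω ∂μ = μ.real (A n) := by
    intro n
    simp only [hf]
    rw [integral_indicator (hA n)]
    simp [Measure.real]
  have hI2 : ∀ n m, ∫ ω, f n ω * f m ω ∂μ = μ.real (A n ∩ A m) := by
    intro n m
    have : (fun ω => f n ω * f m ω) = (A n ∩ A m).indicator (fun _ => (1 : ℝ)) := by
      funext ω
      simp only [hf, Set.indicator, Set.mem_inter_iff]
      by_cases h1 : ω ∈ A n <;> by_cases h2 : ω ∈ A m <;> simp [h1, h2]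
    rw [this, integral_indicator ((hA n).inter (hA m))]
    simp [Measure.real]
  set B : Set Ω := ⋂ n ∈ S, (A n)ᶜ with hB
  have hBm : MeasurableSet B := MeasurableSet.biInter S.countable_toSet fun n _ => (hA n).compl
  set g : Ω → ℝ := fun ω => (∑ n ∈ S, f n ω - E) ^ 2 with hg
  have hgexp : ∀ ω, g ω = ∑ n ∈ S, ∑ m ∈ S, f n ω * f m ω - 2 * E * ∑ n ∈ S, f n ω + E ^ 2 := by
    intro ω
    simp only [hg]
    rw [← sum_mul_sum]
    ring
  have hgi : Integrable g μ := by
    have : g = fun ω => ∑ n ∈ S, ∑ m ∈ S, f n ω * f m ω - 2 * E * ∑ n ∈ S, f n ω + E ^ 2 :=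
      funext hgexp
    rw [this]
    refine Integrable.add (Integrable.sub ?_ ?_) (integrable_const _)
    · exact integrable_finset_sum _ fun n _ => integrable_finset_sum _ fun m _ => hff n m
    · exact (integrable_finset_sum _ fun n _ => hfi n).const_mul _
  have hgint : ∫ ω, g ω ∂μ = ∑ n ∈ S, ∑ m ∈ S, μ.real (A n ∩ A m) - E ^ 2 := by
    have : g = fun ω => ∑ n ∈ S, ∑ m ∈ S, f n ω * f m ω - 2 * E * ∑ n ∈ S, f n ω + E ^ 2 :=
      funext hgexp
    rw [this]
    have i1 : Integrable (fun ω => ∑ n ∈ S, ∑ m ∈ S, f n ω * f m ω) μ :=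
      integrable_finset_sum _ fun n _ => integrable_finset_sum _ fun m _ => hff n m
    have i2 : Integrable (fun ω => 2 * E * ∑ n ∈ S, f n ω) μ :=
      (integrable_finset_sum _ fun n _ => hfi n).const_mul _
    have i3 : Integrable (fun ω => ∑ n ∈ S, ∑ m ∈ S, f n ω * f m ω - 2 * E * ∑ n ∈ S, f n ω) μ :=
      i1.sub i2
    rw [integral_add i3 (integrable_const _), integral_sub i1 i2, integral_const_mul,
      integral_finset_sum _ fun n _ => hfi n,
      integral_finset_sum _ fun n _ => integrable_finset_sum _ fun m _ => hff n m]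
    have h1 : ∀ n ∈ S, ∫ ω, ∑ m ∈ S, f n ω * f m ω ∂μ = ∑ m ∈ S, μ.real (A n ∩ A m) := by
      intro n _
      rw [integral_finset_sum _ fun m _ => hff n m]
      exact sum_congr rfl fun m _ => hI2 n m
    rw [sum_congr rfl h1, sum_congr rfl fun n _ => hI1 n, ← hE]
    simp
    ring
  have hlow : μ.real B * E ^ 2 ≤ ∫ ω, g ω ∂μ := by
    have h1 : ∫ ω, B.indicator (fun _ => E ^ 2) ω ∂μ = μ.real B * E ^ 2 := by
      rw [integral_indicator hBm]
      simp [Measure.real]
    rw [← h1]
    apply integral_mono ((integrable_const _).indicator hBm) hgi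
    intro ω
    simp only [Set.indicator]
    split_ifs with h
    · simp only [hg]
      have h2 : ∑ n ∈ S, f n ω = 0 := by
        apply sum_eq_zero
        intro n hn
        simp only [hf]
        apply Set.indicator_of_notMem
        rw [hB] at h
        have h3 := Set.mem_iInter₂.1 h n hn
        exact h3
      rw [h2]
      apply le_of_eq
      ring
    · exact sq_nonneg _
  have hup : ∑ n ∈ S, ∑ m ∈ S, μ.real (A n ∩ A m) ≤ E ^ 2 + (2 * W + 1) * E := by
    have h1 : ∀ n ∈ S, ∑ m ∈ S, μ.real (A n ∩ A m) ≤ μ.real (A n) * E + (2 * W + 1) * μ.real (A n) := by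
      intro n hn
      rw [← sum_filter_add_sum_filter_not S (fun m => n + W < m ∨ m + W < n)]
      apply add_le_add
      · rw [hE, mul_sum]
        refine le_trans (sum_le_sum (g := fun m => μ.real (A n) * μ.real (A m)) ?_) ?_
        · intro m hm
          rw [mem_filter] at hm
          rcases hm.2 with h | h
          · exact (hind n hn m hm.1 h).le
          · rw [Set.inter_comm, mul_comm]
            exact (hind m hm.1 n hn h).le
        · apply sum_le_sum_of_subset_of_nonneg (filter_subset _ _)
          intro m _ _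
          exact mul_nonneg measureReal_nonneg measureReal_nonneg
      · have h2 : S.filter (fun m => ¬ (n + W < m ∨ m + W < n)) ⊆ Icc (n - W) (n + W) := by
          intro m hm
          rw [mem_filter] at hm
          rw [mem_Icc]
          have := hm.2
          push Not at this
          omega
        have h3 : (Icc (n - W) (n + W)).card ≤ 2 * W + 1 := by
          rw [Nat.card_Icc]
          omega
        calc ∑ m ∈ S.filter (fun m => ¬ (n + W < m ∨ m + W < n)), μ.real (A n ∩ A m)
            ≤ ∑ m ∈ S.filter (fun m => ¬ (n + W < m ∨ m + W < n)), μ.real (A n) := by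
              apply sum_le_sum
              intro m _
              exact measureReal_mono Set.inter_subset_left
          _ = ((S.filter (fun m => ¬ (n + W < m ∨ m + W < n))).card : ℝ) * μ.real (A n) := by
              rw [sum_const, nsmul_eq_mul]
          _ ≤ (2 * W + 1) * μ.real (A n) := by
              apply mul_le_mul_of_nonneg_right _ measureReal_nonneg
              exact_mod_cast (card_le_card h2).trans h3
    refine (sum_le_sum h1).trans ?_
    rw [sum_add_distrib, ← sum_mul, ← mul_sum, ← hE]
    apply le_of_eq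
    ring
  have := hlow.trans (hgint.le)
  linarith

/-- Borel-Cantelli with geometric bounds -/
theorem bc (s : ℕ → Set Ω) (r : ℝ) (hr0 : 0 ≤ r) (hr : r < 1)
    (h : ∀ᶠ k in atTop, μ.real (s k) ≤ r ^ k) : ∀ᵐ ω ∂μ, ∀ᶠ k in atTop, ω ∉ s k := by
  obtain ⟨k₀, hk₀⟩ := eventually_atTop.1 h
  set t : ℕ → Set Ω := fun k => if k₀ ≤ k then s k else ∅ with ht
  have h1 : ∀ k, μ (t k) ≤ ENNReal.ofReal (r ^ k) := by
    intro k
    simp only [ht]
    split_ifs with hk
    · rw [ENNReal.le_ofReal_iff_toReal_le (measure_ne_top _ _) (by positivity)]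
      exact hk₀ k hk
    · simp
  have h2 : ∑' k, μ (t k) ≠ ⊤ := by
    have h3 : ∑' k, ENNReal.ofReal (r ^ k) = ENNReal.ofReal (∑' k, r ^ k) :=
      (ENNReal.ofReal_tsum_of_nonneg (fun k => by positivity)
        (summable_geometric_of_lt_one hr0 hr)).symm
    have h4 := ENNReal.tsum_le_tsum h1
    rw [h3] at h4
    exact ne_top_of_le_ne_top ENNReal.ofReal_ne_top h4
  filter_upwards [ae_eventually_notMem h2] with ω hω
  filter_upwards [hω, eventually_ge_atTop k₀] with k hk hkk
  simp only [ht, if_pos hkk] at hk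
  exact hk

variable (K : ℕ → Set Ω)

/-- all the indices of `T` are deleted -/
def del (T : Finset ℕ) : Set Ω := ⋂ p ∈ T, (K p)ᶜ

theorem mem_del {T : Finset ℕ} {ω : Ω} : ω ∈ del K T ↔ ∀ p ∈ T, ω ∉ K p := by
  unfold del
  simp only [Set.mem_iInter, Set.mem_compl_iff]

variable {K}

theorem del_meas (hK : ∀ n, MeasurableSet (K n)) (T : Finset ℕ) : MeasurableSet (del K T) :=
  MeasurableSet.biInter T.countable_toSet fun n _ => (hK n).compl

theorem del_real (h : iIndepSet K μ) (T : Finset ℕ) :
    μ.real (del K T) = ∏ p ∈ T, μ.real ((K p)ᶜ) := by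
  have h1 := (iIndepSet_iff K μ).1 h T (f := fun p => (K p)ᶜ) (fun i _ => by
    apply MeasurableSet.compl
    exact MeasurableSpace.measurableSet_generateFrom rfl)
  unfold del Measure.real
  rw [h1, ENNReal.toReal_prod]

theorem del_mul (h : iIndepSet K μ) (T T' : Finset ℕ) (hd : Disjoint T T') :
    μ.real (del K T ∩ del K T') = μ.real (del K T) * μ.real (del K T') := by
  have h1 : del K T ∩ del K T' = del K (T ∪ T') := by
    ext ω
    rw [Set.mem_inter_iff, mem_del, mem_del, mem_del]
    constructor
    · rintro ⟨a, b⟩ p hp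
      rcases Finset.mem_union.1 hp with hp | hp
      · exact a p hp
      · exact b p hp
    · intro a
      exact ⟨fun p hp => a p (Finset.mem_union_left _ hp), fun p hp => a p (Finset.mem_union_right _ hp)⟩
  rw [h1, del_real μ h, del_real μ h, del_real μ h, prod_union hd]

theorem del_low (h : iIndepSet K μ) (hK : ∀ n, MeasurableSet (K n)) (T : Finset ℕ) (ρ : ℝ)
    (hρ : ρ ≤ 1) (hT : ∀ p ∈ T, μ.real (K p) ≤ ρ) : (1 - ρ) ^ T.card ≤ μ.real (del K T) := by
  rw [del_real μ h, ← prod_const]
  apply Finset.prod_le_prod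
  · intro p _
    linarith
  · intro p hp
    rw [measureReal_compl (hK p), probReal_univ]
    linarith [hT p hp]

theorem del_up (h : iIndepSet K μ) (hK : ∀ n, MeasurableSet (K n)) (T : Finset ℕ) (ρ : ℝ)
    (hT : ∀ p ∈ T, ρ ≤ μ.real (K p)) : μ.real (del K T) ≤ (1 - ρ) ^ T.card := by
  rw [del_real μ h, ← prod_const]
  apply Finset.prod_le_prod
  · intro p _
    exact measureReal_nonneg
  · intro p hp
    rw [measureReal_compl (hK p), probReal_univ]
    linarith [hT p hp]

end Pool.Agent.R526.TP
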